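import Pool.Agent.Helper6.NX.GoalsB

/-! Project NX, packet Z: conjugates of `h₀⁻¹ h₁` have small entropy. -/

set_option linter.unusedVariables false

namespace Pool.Agent.Helper96.NX

open Pool.Agent.Helper6.NX Equiv

/-- mean value -/
noncomputable def Ex {Ω : Type} [Fintype Ω] (P : Ω → ℝ) (φ : Ω → ℝ) : ℝ := ∑ ω, P ω * φ ω

theorem Ex_prd {Ω Ω' : Type} [Fintype Ω] [Fintype Ω'] (P : Ω → ℝ) (Q : Ω' → ℝ)
    (φ : Ω × Ω' → ℝ) : Ex (prd P Q) φ = Ex P (fun a => Ex Q (fun b => φ (a, b))) := by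
  simp only [Ex, prd, Fintype.sum_prod_type, Finset.mul_sum]
  refine Finset.sum_congr rfl fun a _ => Finset.sum_congr rfl fun b _ => ?_
  ring

theorem Ex_mixl {Ω Ω' : Type} [Fintype Ω] [Fintype Ω'] (p : Ω → ℝ) (Q : Ω → Ω' → ℝ)
    (φ : Ω × Ω' → ℝ) : Ex (mixl p Q) φ = Ex p (fun a => Ex (Q a) (fun b => φ (a, b))) := by
  simp only [Ex, mixl, Fintype.sum_prod_type, Finset.mul_sum]
  refine Finset.sum_congr rfl fun a _ => Finset.sum_congr rfl fun b _ => ?_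
  ring

theorem Ex_swap {Ω Ω' : Type} [Fintype Ω] [Fintype Ω'] (P : Ω → ℝ) (Q : Ω' → ℝ)
    (φ : Ω → Ω' → ℝ) : Ex P (fun a => Ex Q (fun b => φ a b)) =
      Ex Q (fun b => Ex P (fun a => φ a b)) := by
  simp only [Ex, Finset.mul_sum]
  rw [Finset.sum_comm]
  refine Finset.sum_congr rfl fun a _ => Finset.sum_congr rfl fun b _ => ?_
  ring

theorem Ex_const {Ω : Type} [Fintype Ω] (P : Ω → ℝ) (hP : IsLaw P) (c : ℝ) :
    Ex P (fun _ => c) = c := by
  simp only [Ex, ← Finset.sum_mul, hP.2, one_mul]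

theorem Ex_law (hl5 : S_L5) {Ω Ω' : Type} [Fintype Ω] [Fintype Ω'] (P : Ω → ℝ) (f : Ω → Ω')
    (hP : IsLaw P) (φ : Ω' → ℝ) : Ex (law P f) φ = Ex P (fun ω => φ (f ω)) :=
  (hl5 Ω Ω' Ω' P f (fun x => x) hP).2.2.2 φ

theorem law_isLaw (hl5 : S_L5) {Ω Ω' : Type} [Fintype Ω] [Fintype Ω'] (P : Ω → ℝ) (f : Ω → Ω')
    (hP : IsLaw P) : IsLaw (law P f) :=
  (hl5 Ω Ω' Ω' P f (fun x => x) hP).1

theorem H_law (hl5 : S_L5) {Ω Ω' : Type} [Fintype Ω] [Fintype Ω'] (P : Ω → ℝ) (f : Ω → Ω')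
    (hP : IsLaw P) : H (law P f) = ent P f :=
  (hl5 Ω Ω' Ω' P f (fun x => x) hP).2.2.1

theorem ext_Ex {Ω : Type} [Fintype Ω] (μ ν : Ω → ℝ) (h : ∀ φ, Ex μ φ = Ex ν φ) : μ = ν := by
  classical
  funext a
  have := h (Pi.single a 1)
  simpa [Ex, Pi.single_apply] using this

theorem isLaw_prd {Ω Ω' : Type} [Fintype Ω] [Fintype Ω'] (P : Ω → ℝ) (Q : Ω' → ℝ)
    (hP : IsLaw P) (hQ : IsLaw Q) : IsLaw (prd P Q) := by
  refine ⟨fun z => mul_nonneg (hP.1 _) (hQ.1 _), ?_⟩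
  have := Ex_prd P Q (fun _ => 1)
  rw [Ex_const Q hQ, Ex_const P hP] at this
  simpa [Ex] using this

theorem isLaw_mixl {Ω Ω' : Type} [Fintype Ω] [Fintype Ω'] (p : Ω → ℝ) (Q : Ω → Ω' → ℝ)
    (hp : IsLaw p) (hQ : ∀ i, IsLaw (Q i)) : IsLaw (mixl p Q) := by
  refine ⟨fun z => mul_nonneg (hp.1 _) ((hQ _).1 _), ?_⟩
  have := Ex_mixl p Q (fun _ => 1)
  have h2 : (fun a => Ex (Q a) (fun _ => (1 : ℝ))) = fun _ => 1 := by
    funext a; rw [Ex_const _ (hQ a)]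
  rw [h2, Ex_const p hp] at this
  simpa [Ex] using this

theorem isLaw_unif (Ω : Type) [Fintype Ω] [Nonempty Ω] : IsLaw (unif Ω) := by
  refine ⟨fun _ => by unfold unif; positivity, ?_⟩
  simp [unif]

/-- the weights of everything except `E` -/
noncomputable def pw {n : ℕ} (k : ℕ) (ν ω : Perm (Fin n) → ℝ) :
    Perm (Fin n) × ((Perm (Fin n) × Perm (Fin n)) × (Perm (Fin n) × Perm (Fin n))) → ℝ :=
  mixl (unif (Perm (Fin n))) (fun π => prd (ccp ν (res (im π (ini n k)))) (prd ω ν))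

theorem pw_law (hl8 : S_L8) {n : ℕ} (k : ℕ) (ν ω : Perm (Fin n) → ℝ) (hν : IsLaw ν)
    (hω : IsLaw ω) : IsLaw (pw k ν ω) :=
  isLaw_mixl _ _ (isLaw_unif _) fun π => isLaw_prd _ _
    (hl8 (Perm (Fin n)) Unit Unit _ ν (fun _ => ()) (fun _ => ()) (res (im π (ini n k))) hν).1
    (isLaw_prd _ _ hω hν)

theorem Ex_pw {n : ℕ} (k : ℕ) (ν ω : Perm (Fin n) → ℝ)
    (φ : Perm (Fin n) × ((Perm (Fin n) × Perm (Fin n)) × (Perm (Fin n) × Perm (Fin n))) → ℝ) :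
    Ex (pw k ν ω) φ = Ex (unif (Perm (Fin n))) (fun π =>
      Ex (ccp ν (res (im π (ini n k)))) (fun h => Ex ω (fun w => Ex ν (fun g =>
        φ (π, (h, (w, g))))))) := by
  simp only [pw, Ex_mixl, Ex_prd]

theorem Ex_ccp_fst (hl5 : S_L5) (hl8 : S_L8) {n : ℕ} {β : Type} (ν : Perm (Fin n) → ℝ)
    (hν : IsLaw ν) (Y : Perm (Fin n) → β) (φ : Perm (Fin n) → ℝ) :
    Ex (ccp ν Y) (fun h => φ h.1) = Ex ν φ := by
  have h8 := hl8 (Perm (Fin n)) Unit Unit β ν (fun _ => ()) (fun _ => ()) Y hν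
  rw [← Ex_law hl5 (ccp ν Y) Prod.fst h8.1 φ, h8.2.1]

theorem Ex_ccp_snd (hl5 : S_L5) (hl8 : S_L8) {n : ℕ} {β : Type} (ν : Perm (Fin n) → ℝ)
    (hν : IsLaw ν) (Y : Perm (Fin n) → β) (φ : Perm (Fin n) → ℝ) :
    Ex (ccp ν Y) (fun h => φ h.2) = Ex ν φ := by
  have h8 := hl8 (Perm (Fin n)) Unit Unit β ν (fun _ => ()) (fun _ => ()) Y hν
  rw [← Ex_law hl5 (ccp ν Y) Prod.snd h8.1 φ, h8.2.2.1]

theorem Ex_chi (hl5 : S_L5) (hl8 : S_L8) {n : ℕ} (k : ℕ) (ν : Perm (Fin n) → ℝ) (hν : IsLaw ν)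
    (φ : Perm (Fin n) → ℝ) : Ex (chi ν k) φ = Ex (unif (Perm (Fin n))) (fun π =>
      Ex (ccp ν (res (im π (ini n k)))) (fun h => φ (h.1⁻¹ * h.2))) := by
  have h1 : ∀ π : Perm (Fin n), Ex (ccp ν (res (im π (ini n k)))) (fun h => φ (h.1⁻¹ * h.2)) =
      ∑ σ, law (ccp ν (res (im π (ini n k)))) (fun z => z.1⁻¹ * z.2) σ * φ σ := fun π => by
    have h8 := hl8 (Perm (Fin n)) Unit Unit _ ν (fun _ => ()) (fun _ => ())
      (res (im π (ini n k))) hν
    rw [← Ex_law hl5 (ccp ν (res (im π (ini n k)))) (fun z => z.1⁻¹ * z.2) h8.1 φ]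
    rfl
  simp only [h1]
  simp only [Ex, chi, unif, Finset.mul_sum, Finset.sum_mul]
  rw [Finset.sum_comm]
  refine Finset.sum_congr rfl fun a _ => Finset.sum_congr rfl fun b _ => ?_
  rw [Fintype.card_perm, Fintype.card_fin]
  ring

theorem chi_law (hl5 : S_L5) (hl8 : S_L8) {n : ℕ} (k : ℕ) (ν : Perm (Fin n) → ℝ)
    (hν : IsLaw ν) : IsLaw (chi ν k) := by
  constructor
  · intro σ
    refine mul_nonneg (by positivity) (Finset.sum_nonneg fun π _ => ?_)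
    have h8 := hl8 (Perm (Fin n)) Unit Unit _ ν (fun _ => ()) (fun _ => ())
      (res (im π (ini n k))) hν
    exact (law_isLaw hl5 _ _ h8.1).1 σ
  · have h := Ex_chi hl5 hl8 k ν hν (fun _ => 1)
    have h2 : ∀ π : Perm (Fin n), Ex (ccp ν (res (im π (ini n k)))) (fun _ => (1 : ℝ)) = 1 :=
      fun π => Ex_const _ (hl8 (Perm (Fin n)) Unit Unit _ ν (fun _ => ()) (fun _ => ())
        (res (im π (ini n k))) hν).1 1
    simp only [h2] at h
    rw [Ex_const _ (isLaw_unif _)] at h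
    simpa [Ex] using h

/-- the law of `z` -/
theorem law_z (hl5 : S_L5) (hl8 : S_L8) {n : ℕ} (k : ℕ) (ν ω : Perm (Fin n) → ℝ)
    (hν : IsLaw ν) (hω : IsLaw ω) :
    cjr ν (cjl ω (chi ν k)) = law (prd (pw k ν ω) ν) (fun z =>
      z.1.2.2.2 * z.1.2.2.1⁻¹ * z.1.2.1.1⁻¹ * z.1.2.1.2 * z.1.2.2.1 * z.1.2.2.2⁻¹) := by
  have hχ := chi_law hl5 hl8 k ν hν
  have hc : IsLaw (cjl ω (chi ν k)) := law_isLaw hl5 _ _ (isLaw_prd _ _ hω hχ)
  apply ext_Ex
  intro φ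
  rw [Ex_law hl5 _ _ (isLaw_prd _ _ (pw_law hl8 k ν ω hν hω) hν)]
  rw [show cjr ν (cjl ω (chi ν k)) = law (prd ν (cjl ω (chi ν k)))
    (fun z => z.1 * z.2 * z.1⁻¹) from rfl]
  rw [Ex_law hl5 _ _ (isLaw_prd _ _ hν hc), Ex_prd, Ex_prd]
  simp only [Ex_const ν hν]
  rw [Ex_pw]
  have h1 : ∀ g : Perm (Fin n), Ex (cjl ω (chi ν k)) (fun b => φ (g * b * g⁻¹)) =
      Ex (unif (Perm (Fin n))) (fun π => Ex (ccp ν (res (im π (ini n k)))) (fun h =>
        Ex ω (fun w => φ (g * w⁻¹ * h.1⁻¹ * h.2 * w * g⁻¹)))) := by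
    intro g
    rw [show cjl ω (chi ν k) = law (prd ω (chi ν k)) (fun z => z.1⁻¹ * z.2 * z.1) from rfl]
    rw [Ex_law hl5 _ _ (isLaw_prd _ _ hω hχ), Ex_prd]
    simp only [Ex_chi hl5 hl8 k ν hν]
    rw [Ex_swap]
    congr 1
    funext π
    rw [Ex_swap]
    congr 1
  simp only [h1]
  rw [Ex_swap]
  congr 1
  funext π
  rw [Ex_swap]
  congr 1
  funext h
  rw [Ex_swap]

theorem res_eq {n : ℕ} {D : Finset (Fin n)} {h h' : Perm (Fin n)} :
    res D h = res D h' ↔ ∀ x ∈ D, h x = h' x := by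
  constructor
  · intro e x hx
    have := congrFun e x
    simpa [res, hx] using this
  · intro e
    funext x
    by_cases hx : x ∈ D
    · simp [res, hx, e x hx]
    · simp [res, hx]

theorem mem_im {n : ℕ} {π : Perm (Fin n)} {D : Finset (Fin n)} {x : Fin n} :
    x ∈ im π D ↔ ∃ y ∈ D, π y = x := by
  simp [im]

theorem im_mul {n : ℕ} (π σ : Perm (Fin n)) (D : Finset (Fin n)) :
    im (π * σ) D = im π (im σ D) := by
  ext x
  simp [im]

/-- `T` for a given choice of `u` -/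
theorem ent_T (hl5 : S_L5) (hl9h : S_L9H) (hcv : S_CV) {n : ℕ} (ν ω : Perm (Fin n) → ℝ) (θ : ℝ)
    (hν : IsLaw ν) (hω : IsLaw ω) (hsym : ∀ g, ν g⁻¹ = ν g)
    (hθ : ∀ w, 0 < ω w → ∑ g, |ν (g * w⁻¹) - ν g| ≤ θ)
    {Ω : Type} [Fintype Ω] (P : Ω → ℝ) (hP : IsLaw P) (T : Ω → Perm (Fin n))
    (hT : ∀ φ : Perm (Fin n) → ℝ, Ex P (fun z => φ (T z)) = Ex ω (fun w => Ex ν (fun g =>
      Ex ν (fun h => Ex ν (fun E => φ (E * (h * w * g⁻¹))))))) :
    ent P T ≤ H (conv (conv ν ν) ν) + θ / 2 * Real.log n.factorial + 2 * √θ := by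
  classical
  have hθ0 : 0 ≤ θ := by
    by_contra hneg
    have : ∀ w, ω w = 0 := fun w => by
      by_contra hw
      have h1 := hθ w (lt_of_le_of_ne (hω.1 w) (Ne.symm hw))
      have h2 : 0 ≤ ∑ g, |ν (g * w⁻¹) - ν g| := Finset.sum_nonneg fun _ _ => abs_nonneg _
      linarith
    have h3 := hω.2
    simp [this] at h3
  rw [← H_law hl5 P T hP]
  set νw : Perm (Fin n) → Perm (Fin n) → ℝ := fun w x => ν (x * w⁻¹) with hνw
  have hνwlaw : ∀ w, IsLaw (νw w) := fun w => by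
    refine ⟨fun x => hν.1 _, ?_⟩
    exact (Equiv.sum_comp (Equiv.mulRight w⁻¹) ν).trans hν.2
  have hExw : ∀ w φ, Ex (νw w) φ = Ex ν (fun h => φ (h * w)) := fun w φ => by
    simp only [Ex, hνw]
    rw [← Equiv.sum_comp (Equiv.mulRight w)]
    simp
  have hExinv : ∀ φ, Ex ν (fun g => φ g⁻¹) = Ex ν φ := fun φ => by
    simp only [Ex]
    rw [← Equiv.sum_comp (Equiv.inv (Perm (Fin n)))]
    simp [hsym]
  have hc1 : ∀ w, IsLaw (conv ν (νw w)) := fun w =>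
    law_isLaw hl5 _ _ (isLaw_prd _ _ hν (hνwlaw w))
  have hc2 : ∀ w, IsLaw (conv (conv ν (νw w)) ν) := fun w =>
    law_isLaw hl5 _ _ (isLaw_prd _ _ (hc1 w) hν)
  have hExc : ∀ w φ, Ex (conv (conv ν (νw w)) ν) φ =
      Ex ν (fun g => Ex ν (fun h => Ex ν (fun E => φ (E * (h * w * g⁻¹))))) := fun w φ => by
    rw [show conv (conv ν (νw w)) ν = law (prd (conv ν (νw w)) ν) (fun z => z.1 * z.2) from rfl]
    rw [Ex_law hl5 _ _ (isLaw_prd _ _ (hc1 w) hν), Ex_prd, Ex_swap,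
      ← hExinv (fun g => Ex (conv ν (νw w)) (fun a => φ (a * g)))]
    congr 1
    funext g
    rw [show conv ν (νw w) = law (prd ν (νw w)) (fun z => z.1 * z.2) from rfl]
    rw [Ex_law hl5 _ _ (isLaw_prd _ _ hν (hνwlaw w)), Ex_prd, Ex_swap, hExw]
    congr 1
  -- pointwise formula for the law of `T`
  have hpt : ∀ x, law P T x = ∑ w, ω w * conv (conv ν (νw w)) ν x := by
    intro x
    have h1 := Ex_law hl5 P T hP (Pi.single x 1)
    rw [hT (Pi.single x 1)] at h1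
    simp only [← hExc] at h1
    have h2 : ∀ μ : Perm (Fin n) → ℝ, Ex μ (Pi.single x 1) = μ x := fun μ => by
      simp [Ex, Pi.single_apply]
    simp only [h2] at h1
    rw [h1]
    rfl
  have hv1 : ∀ w, 0 < ω w → ∑ g, |conv (conv ν (νw w)) ν g - conv (conv ν ν) ν g| ≤ θ := by
    intro w hw
    have a1 := (hcv (Perm (Fin n)) ν (νw w) ν ν hν (hνwlaw w) hν hν).2.2.2.2.2.1
    have a2 := (hcv (Perm (Fin n)) ν (conv ν (νw w)) ν (conv ν ν) hν (hc1 w) hν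
      (law_isLaw hl5 _ _ (isLaw_prd _ _ hν hν))).2.2.2.2.2.2
    exact a2.trans (a1.trans (hθ w hw))
  have htot : ∑ g, |law P T g - conv (conv ν ν) ν g| ≤ 2 * (θ / 2) := by
    have h3 : ∀ g, |law P T g - conv (conv ν ν) ν g| ≤
        ∑ w, ω w * |conv (conv ν (νw w)) ν g - conv (conv ν ν) ν g| := by
      intro g
      have : law P T g - conv (conv ν ν) ν g =
          ∑ w, ω w * (conv (conv ν (νw w)) ν g - conv (conv ν ν) ν g) := by
        simp only [mul_sub, Finset.sum_sub_distrib, ← hpt, ← Finset.sum_mul, hω.2, one_mul]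
      rw [this]
      refine (Finset.abs_sum_le_sum_abs _ _).trans (Finset.sum_le_sum fun w _ => ?_)
      rw [abs_mul, abs_of_nonneg (hω.1 w)]
    calc ∑ g, |law P T g - conv (conv ν ν) ν g|
        ≤ ∑ g, ∑ w, ω w * |conv (conv ν (νw w)) ν g - conv (conv ν ν) ν g| :=
          Finset.sum_le_sum fun g _ => h3 g
      _ = ∑ w, ω w * ∑ g, |conv (conv ν (νw w)) ν g - conv (conv ν ν) ν g| := by
          rw [Finset.sum_comm]; simp only [Finset.mul_sum]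
      _ ≤ ∑ w, ω w * θ := Finset.sum_le_sum fun w _ => by
          rcases (hω.1 w).eq_or_lt with h | h
          · rw [← h]; simp
          · exact mul_le_mul_of_nonneg_left (hv1 w h) h.le
      _ = 2 * (θ / 2) := by rw [← Finset.sum_mul, hω.2]; ring
  have hfin := hl9h (Perm (Fin n)) (law P T) (conv (conv ν ν) ν) (θ / 2)
    (law_isLaw hl5 P T hP) (law_isLaw hl5 _ _ (isLaw_prd _ _
      (law_isLaw hl5 _ _ (isLaw_prd _ _ hν hν)) hν)) htot
  rw [Fintype.card_perm, Fintype.card_fin] at hfin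
  have hs : √(θ / 2) ≤ √θ := Real.sqrt_le_sqrt (by linarith)
  linarith

theorem AA_mean (hl5 : S_L5) (hl8 : S_L8) {n : ℕ} (k : ℕ) (ν ω : Perm (Fin n) → ℝ)
    (hν : IsLaw ν) (hω : IsLaw ω) :
    Ex (pw k ν ω) (fun i => HD ν (im (i.2.1.2 * i.1) (ini n k))) = AA ν k := by
  rw [Ex_pw]
  simp only [Ex_const ν hν, Ex_const ω hω]
  have h1 : ∀ π : Perm (Fin n), Ex (ccp ν (res (im π (ini n k))))
      (fun h => HD ν (im (h.2 * π) (ini n k))) =
      Ex ν (fun h => HD ν (im (h * π) (ini n k))) := fun π =>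
    Ex_ccp_snd hl5 hl8 ν hν (res (im π (ini n k))) (fun h => HD ν (im (h * π) (ini n k)))
  simp only [h1]
  rw [Ex_swap]
  have h2 : ∀ h : Perm (Fin n), Ex (unif (Perm (Fin n)))
      (fun π => HD ν (im (h * π) (ini n k))) = AA ν k := fun h => by
    simp only [Ex, unif, AA, Fintype.card_perm, Fintype.card_fin, ← Finset.mul_sum]
    exact congrArg _ (Equiv.sum_comp (Equiv.mulLeft h) (fun π => HD ν (im π (ini n k))))
  simp only [h2]
  exact Ex_const ν hν _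

theorem ccp_pos {n : ℕ} {β : Type} (ν : Perm (Fin n) → ℝ) (Y : Perm (Fin n) → β)
    (z : Perm (Fin n) × Perm (Fin n)) (h : ccp ν Y z ≠ 0) : Y z.1 = Y z.2 := by
  classical
  by_contra hne
  apply h
  simp [ccp, hne]

/-- **NX-Z** -/
theorem thmZ (hl2 : S_L2) (hl3c : S_L3C) (hl4 : S_L4) (hl5 : S_L5) (hl7 : S_L7) (hl8 : S_L8)
    (hl9h : S_L9H) (hcv : S_CV) (havg : S_AVG) : S_Z := by
  classical
  intro n k ν ω θ hn hkn hν hω hsym hθ
  set I : Type := Perm (Fin n) × ((Perm (Fin n) × Perm (Fin n)) × (Perm (Fin n) × Perm (Fin n)))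
    with hI
  set p : I → ℝ := pw k ν ω with hp
  have hpl : IsLaw p := pw_law hl8 k ν ω hν hω
  set P : I × Perm (Fin n) → ℝ := prd p ν with hP
  have hPl : IsLaw P := isLaw_prd _ _ hpl hν
  let u0 : I → Perm (Fin n) := fun i => i.2.1.1 * i.2.2.1 * i.2.2.2⁻¹
  let u1 : I → Perm (Fin n) := fun i => i.2.1.2 * i.2.2.1 * i.2.2.2⁻¹
  let dl : I → Finset (Fin n) := fun i => im (i.2.2.2 * i.2.2.1⁻¹ * i.1) (ini n k)
  let T0 : I × Perm (Fin n) → Perm (Fin n) := fun z => z.2 * u0 z.1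
  let T1 : I × Perm (Fin n) → Perm (Fin n) := fun z => z.2 * u1 z.1
  let zz : I × Perm (Fin n) → Perm (Fin n) := fun z =>
      z.1.2.2.2 * z.1.2.2.1⁻¹ * z.1.2.1.1⁻¹ * z.1.2.1.2 * z.1.2.2.1 * z.1.2.2.2⁻¹
  have hzzT : ∀ z, zz z = (T0 z)⁻¹ * T1 z := fun z => by
    simp only [zz, T0, T1, u0, u1]; group
  have hzzu : ∀ z, zz z = (u0 z.1)⁻¹ * u1 z.1 := fun z => by
    simp only [zz, u0, u1]; group
  -- positivity
  have hpos : ∀ z, 0 < P z → res (dl z.1) (T0 z) = res (dl z.1) (T1 z) := by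
    intro z hz
    have h1 : ccp ν (res (im z.1.1 (ini n k))) z.1.2.1 ≠ 0 := by
      intro h0
      have : P z = 0 := by
        simp [P, prd, p, pw, mixl, h0]
      linarith
    have h2 := res_eq.1 (ccp_pos ν _ _ h1)
    rw [res_eq]
    intro x hx
    obtain ⟨y, hy, rfl⟩ := mem_im.1 hx
    have h3 := h2 (z.1.1 y) (mem_im.2 ⟨y, hy, rfl⟩)
    have h4 : T0 z ((z.1.2.2.2 * z.1.2.2.1⁻¹ * z.1.1) y) = z.2 (z.1.2.1.1 (z.1.1 y)) := by
      simp [T0, u0]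
    have h5 : T1 z ((z.1.2.2.2 * z.1.2.2.1⁻¹ * z.1.1) y) = z.2 (z.1.2.1.2 (z.1.1 y)) := by
      simp [T1, u1]
    rw [h4, h5, h3]
  -- the law of `z`
  have hH : H (cjr ν (cjl ω (chi ν k))) = ent P zz := by
    rw [law_z hl5 hl8 k ν ω hν hω, H_law hl5 _ _ hPl]
  have e0 : ent P zz ≤ ent P (fun z => (zz z, dl z.1)) :=
    hl2 _ _ _ P _ _ hPl fun a b _ _ h => (Prod.ext_iff.1 h).1
  -- submodularity
  have a0 := (hl4 _ _ _ _ P (fun z => (T0 z, T1 z)) (fun z => (u0 z.1, u1 z.1))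
    (fun z => (zz z, dl z.1)) hPl).2
  have a1 : ent P (fun z => ((T0 z, T1 z), (zz z, dl z.1))) ≤
      ent P (fun z => ((T0 z, T1 z), dl z.1)) :=
    hl2 _ _ _ P _ _ hPl fun a b _ _ h => by
      simp only [Prod.mk.injEq] at h ⊢
      simp only [hzzT, h, and_self]
  have a2 : ent P (fun z => ((u0 z.1, u1 z.1), (zz z, dl z.1))) ≤
      ent P (fun z => ((u0 z.1, u1 z.1), dl z.1)) :=
    hl2 _ _ _ P _ _ hPl fun a b _ _ h => by
      simp only [Prod.mk.injEq] at h ⊢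
      simp only [hzzu, h, and_self]
  have a3 : ent P (fun z => (((u0 z.1, u1 z.1), dl z.1), z.2)) ≤
      ent P (fun z => ((T0 z, T1 z), (u0 z.1, u1 z.1), (zz z, dl z.1))) :=
    hl2 _ _ _ P _ _ hPl fun a b _ _ h => by
      simp only [Prod.mk.injEq] at h ⊢
      obtain ⟨⟨h1, h2⟩, ⟨h3, h4⟩, h5, h6⟩ := h
      refine ⟨⟨⟨h3, h4⟩, h6⟩, ?_⟩
      simp only [T0] at h1
      rw [h3] at h1
      exact mul_right_cancel h1
  have a4 := (hl7 I (Perm (Fin n)) (Perm (Fin n)) Unit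
    ((Perm (Fin n) × Perm (Fin n)) × Finset (Fin n)) p (fun _ => ν) (fun _ x => x)
    (fun _ _ => ()) (fun i => ((u0 i, u1 i), dl i)) hpl (fun _ => hν)).2.2.2.2 ν (fun x => x) hν
  have a5 : ent P (fun z => (((u0 z.1, u1 z.1), dl z.1), z.2)) =
      ent p (fun i => ((u0 i, u1 i), dl i)) + H ν := a4.2.1
  have a6 : ent P (fun z => ((u0 z.1, u1 z.1), dl z.1)) =
      ent p (fun i => ((u0 i, u1 i), dl i)) := a4.2.2.1
  -- the pair `T`
  have b0 := (hl4 _ _ _ _ P T0 T1 (fun z => (res (dl z.1) (T1 z), dl z.1)) hPl).2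
  have b1 : ent P (fun z => ((T0 z, T1 z), dl z.1)) ≤
      ent P (fun z => (T0 z, T1 z, (res (dl z.1) (T1 z), dl z.1))) :=
    hl2 _ _ _ P _ _ hPl fun a b _ _ h => by
      simp only [Prod.mk.injEq] at h ⊢
      exact ⟨⟨h.1, h.2.1⟩, h.2.2.2⟩
  have b2 : ent P (fun z => (T0 z, (res (dl z.1) (T1 z), dl z.1))) ≤
      ent P (fun z => (T0 z, dl z.1)) :=
    hl2 _ _ _ P _ _ hPl fun a b ha hb h => by
      simp only [Prod.mk.injEq] at h ⊢
      refine ⟨h.1, ?_, h.2⟩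
      rw [← hpos a ha, ← hpos b hb, h.1, h.2]
  have b3 : ent P (fun z => (T1 z, (res (dl z.1) (T1 z), dl z.1))) ≤
      ent P (fun z => (T1 z, dl z.1)) :=
    hl2 _ _ _ P _ _ hPl fun a b ha hb h => by
      simp only [Prod.mk.injEq] at h ⊢
      refine ⟨h.1, ?_, h.2⟩
      rw [h.1, h.2]
  -- subadditivity
  have hunit : ent P (fun _ => ()) = 0 :=
    (hl3c _ Unit Unit P (fun _ => ()) (fun _ => ()) hPl).2.2.1
  have hsub : ∀ T : I × Perm (Fin n) → Perm (Fin n),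
      ent P (fun z => (T z, dl z.1)) ≤ ent P T + ent P (fun z => dl z.1) := by
    intro T
    have c0 := (hl4 _ _ _ _ P T (fun z => dl z.1) (fun _ => ()) hPl).2
    have c1 : ent P (fun z => (T z, dl z.1)) ≤ ent P (fun z => (T z, dl z.1, ())) :=
      hl2 _ _ _ P _ _ hPl fun a b _ _ h => by
        simp only [Prod.mk.injEq] at h ⊢
        exact ⟨h.1, h.2.1⟩
    have c2 : ent P (fun z => (T z, ())) ≤ ent P T :=
      hl2 _ _ _ P _ _ hPl fun a b _ _ h => by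
        simp only [Prod.mk.injEq] at h ⊢
        exact ⟨h, trivial⟩
    have c3 : ent P (fun z => (dl z.1, ())) ≤ ent P (fun z => dl z.1) :=
      hl2 _ _ _ P _ _ hPl fun a b _ _ h => by
        simp only [Prod.mk.injEq] at h ⊢
        exact ⟨h, trivial⟩
    rw [hunit] at c0
    linarith
  -- the restriction of `T₁`
  have d0 := (hl4 _ _ _ _ P (fun z => res (dl z.1) (T1 z)) (fun z => z.1)
    (fun z => dl z.1) hPl).1
  have d1 : ent P (fun z => (res (im (z.1.2.1.2 * z.1.1) (ini n k)) z.2, z.1)) ≤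
      ent P (fun z => (res (dl z.1) (T1 z), (z.1, dl z.1))) :=
    hl2 _ _ _ P _ _ hPl fun a b _ _ h => by
      simp only [Prod.mk.injEq] at h ⊢
      obtain ⟨h1, h2, h3⟩ := h
      refine ⟨?_, h2⟩
      obtain ⟨a1, a2⟩ := a
      obtain ⟨b1, b2⟩ := b
      simp only at h1 h2 h3 ⊢
      subst h2
      rw [res_eq] at h1 ⊢
      intro x hx
      obtain ⟨y, hy, rfl⟩ := mem_im.1 hx
      have h4 := h1 ((a1.2.2.2 * a1.2.2.1⁻¹ * a1.1) y) (mem_im.2 ⟨y, hy, rfl⟩)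
      simpa [T1, u1] using h4
  have d2 : ent P (fun z => (z.1, dl z.1)) ≤ ent P (fun z => z.1) :=
    hl2 _ _ _ P _ _ hPl fun a b _ _ h => by
      simp only [Prod.mk.injEq] at h ⊢
      exact ⟨h, by rw [h]⟩
  have d3 := (hl7 I (Perm (Fin n)) (Fin n → Option (Fin n)) Unit Unit p (fun _ => ν)
    (fun i x => res (im (i.2.1.2 * i.1) (ini n k)) x) (fun _ _ => ()) (fun _ => ()) hpl
    (fun _ => hν)).2.2.1
  have d4 : ∑ i, p i * ent ν (fun x => res (im (i.2.1.2 * i.1) (ini n k)) x) = AA ν k :=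
    AA_mean hl5 hl8 k ν ω hν hω
  have d5 : ent P (fun z => (res (im (z.1.2.1.2 * z.1.1) (ini n k)) z.2, z.1)) -
      ent P (fun z => z.1) = AA ν k := by
    rw [← d4, ← d3]; rfl
  simp only [cent] at d0
  -- the entropy of `Δ`
  have f0 : ent P (fun z => dl z.1) ≤ Real.log (n.choose k) := by
    have h1 := (hl3c _ (Finset (Fin n)) Unit P (fun z => dl z.1) (fun _ => ()) hPl).2.1
      (Finset.powersetCard k Finset.univ) (fun z _ => by
        rw [Finset.mem_powersetCard]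
        refine ⟨Finset.subset_univ _, ?_⟩
        rw [show dl z.1 = (ini n k).image _ from rfl,
          Finset.card_image_of_injective _ (Equiv.injective _)]
        exact (havg n k).2.2 hkn)
    rwa [Finset.card_powersetCard, Finset.card_univ, Fintype.card_fin] at h1
  -- the entropies of `T₀`, `T₁`
  have g0 : ent P T0 ≤ H (conv (conv ν ν) ν) + θ / 2 * Real.log n.factorial + 2 * √θ := by
    apply ent_T hl5 hl9h hcv ν ω θ hν hω hsym hθ P hPl T0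
    intro φ
    rw [show P = prd (pw k ν ω) ν from rfl, Ex_prd, Ex_pw]
    have h1 : ∀ π : Perm (Fin n), Ex (ccp ν (res (im π (ini n k)))) (fun h =>
        Ex ω fun w => Ex ν fun g => Ex ν fun b => φ (T0 ((π, h, w, g), b))) =
        Ex ν (fun h => Ex ω fun w => Ex ν fun g => Ex ν fun b => φ (b * (h * w * g⁻¹))) :=
      fun π => Ex_ccp_fst hl5 hl8 ν hν (res (im π (ini n k))) (fun h =>
        Ex ω fun w => Ex ν fun g => Ex ν fun b => φ (b * (h * w * g⁻¹)))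
    simp only [h1]
    rw [Ex_const _ (isLaw_unif _), Ex_swap]
    congr 1
    funext w
    rw [Ex_swap]
  have g1 : ent P T1 ≤ H (conv (conv ν ν) ν) + θ / 2 * Real.log n.factorial + 2 * √θ := by
    apply ent_T hl5 hl9h hcv ν ω θ hν hω hsym hθ P hPl T1
    intro φ
    rw [show P = prd (pw k ν ω) ν from rfl, Ex_prd, Ex_pw]
    have h1 : ∀ π : Perm (Fin n), Ex (ccp ν (res (im π (ini n k)))) (fun h =>
        Ex ω fun w => Ex ν fun g => Ex ν fun b => φ (T1 ((π, h, w, g), b))) =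
        Ex ν (fun h => Ex ω fun w => Ex ν fun g => Ex ν fun b => φ (b * (h * w * g⁻¹))) :=
      fun π => Ex_ccp_snd hl5 hl8 ν hν (res (im π (ini n k))) (fun h =>
        Ex ω fun w => Ex ν fun g => Ex ν fun b => φ (b * (h * w * g⁻¹)))
    simp only [h1]
    rw [Ex_const _ (isLaw_unif _), Ex_swap]
    congr 1
    funext w
    rw [Ex_swap]
  have hs0 := hsub T0
  have hs1 := hsub T1
  rw [hH]
  linarith

end Pool.Agent.Helper96.NX
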