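import Pool.Agent.Helper65.NX.Goals3
import Pool.Agent.Helper65.NX.K88.AWTH

/-!
# Packet NX-APL: cellular automata as networks, time alone
-/

namespace Pool.Agent.Helper96.NX

open Pool.Agent.Helper65.LinSpace Pool.Agent.Helper78.Mpc Pool.Agent.Helper28.Ram Finset
open Pool.Agent.Helper65.HC Pool.Agent.Helper65.NX Pool.Agent.Helper65.NX.K88
open Pool.Agent.Helper81.Sus2 (Decomp)

/-- APL. -/
theorem apl (hL : ALIN_stmt) (hV : AVAL_stmt) (hC : ACONE_stmt) : APL_stmt := by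
  intro D _ A N hN
  have := A.finState
  have hD : 0 < D := Nat.pos_of_ne_zero (NeZero.ne D)
  obtain ⟨-, hcw⟩ := hL A
  obtain ⟨s, hs⟩ : ∃ s, ∀ q, (sc A q).length ≤ s := by
    obtain ⟨s, hs⟩ := (Set.finite_range fun q => (sc A q).length).bddAbove
    exact ⟨s, fun q => hs ⟨q, rfl⟩⟩
  refine ⟨?_, ?_⟩
  · rintro w y ⟨p, r, hacc⟩
    exact sound hV A N hN hcw w y p r hacc
  · intro C
    have hC₀0 : 0 ≤ max C 0 := le_max_right _ _
    obtain ⟨c0, hc0⟩ : ∃ c0 : ℕ, 4 * (max C 0 + 1) ≤ (2 : ℝ) ^ c0 := by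
      obtain ⟨c0, hc0⟩ := pow_unbounded_of_one_lt (4 * (max C 0 + 1)) (one_lt_two)
      exact ⟨c0, hc0.le⟩
    have k1 : 0 ≤ 8 * (3 : ℝ) ^ D * s := by positivity
    have k2 : 0 ≤ 8 * max C 0 + 8 := by positivity
    have k3 : 0 ≤ 8 * ((s : ℝ) + (D + 1) * (2 + c0)) := by positivity
    refine ⟨8 * (3 : ℝ) ^ D * s + (8 * max C 0 + 8) + 8 * ((s : ℝ) + (D + 1) * (2 + c0)), ?_⟩
    rintro w y ⟨t, ht, hacc⟩
    have hn0 : (0 : ℝ) ≤ (w.length : ℝ) := Nat.cast_nonneg _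
    have hN1 : 1 ≤ (w.length : ℝ) + 1 := by linarith
    have hlg0 : (0 : ℝ) ≤ (Nat.log 2 w.length : ℝ) := Nat.cast_nonneg _
    have hl1 : 1 ≤ (Nat.log 2 w.length : ℝ) + 1 := by linarith
    have hl0 : 0 < (Nat.log 2 w.length : ℝ) + 1 := by linarith
    have hlg'0 : (0 : ℝ) ≤ (Nat.log 2 (Nat.log 2 w.length + 1) : ℝ) := Nat.cast_nonneg _
    have hl'1 : 1 ≤ (Nat.log 2 (Nat.log 2 w.length + 1) : ℝ) + 1 := by linarith
    have hl'0 : 0 < (Nat.log 2 (Nat.log 2 w.length + 1) : ℝ) + 1 := by linarith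
    have hl3 := lcube w.length
    have hll := lle (Nat.log 2 w.length + 1) (Nat.succ_pos _)
    have hl'2 := lsq (Nat.log 2 w.length + 1) (Nat.succ_pos _)
    push_cast at hll hl'2
    have hll8 : ((Nat.log 2 w.length : ℝ) + 1) * ((Nat.log 2 (Nat.log 2 w.length + 1) : ℝ) + 1) ≤
        8 * ((w.length : ℝ) + 1) := by
      have h1 := mul_le_mul_of_nonneg_left hll hl0.le
      have h2 : ((Nat.log 2 w.length : ℝ) + 1) ^ 2 * 1 ≤
          ((Nat.log 2 w.length : ℝ) + 1) ^ 2 * ((Nat.log 2 w.length : ℝ) + 1) :=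
        mul_le_mul_of_nonneg_left hl1 (sq_nonneg _)
      linarith [h1, h2, hl3, show ((Nat.log 2 w.length : ℝ) + 1) ^ 3 =
        ((Nat.log 2 w.length : ℝ) + 1) ^ 2 * ((Nat.log 2 w.length : ℝ) + 1) by ring,
        show ((Nat.log 2 w.length : ℝ) + 1) ^ 2 =
          ((Nat.log 2 w.length : ℝ) + 1) * ((Nat.log 2 w.length : ℝ) + 1) by ring]
    have ht0 : (t : ℝ) ≤ max C 0 * ((w.length : ℝ) + 1) ^ (1 + 1 / (D : ℝ)) /
        ((Nat.log 2 w.length : ℝ) + 1) ^ 3 := by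
      refine ht.trans ?_
      have h1 : 0 ≤ ((w.length : ℝ) + 1) ^ (1 + 1 / (D : ℝ)) /
        ((Nat.log 2 w.length : ℝ) + 1) ^ 3 := by positivity
      rw [mul_div_assoc, mul_div_assoc]
      exact mul_le_mul_of_nonneg_right (le_max_left _ _) h1
    obtain ⟨B, hB0, hB1, hB2⟩ := exists_B D hD (((w.length : ℝ) + 1) /
      (((Nat.log 2 w.length : ℝ) + 1) * ((Nat.log 2 (Nat.log 2 w.length + 1) : ℝ) + 1)))
      (by positivity)
    have hBr : (1 : ℝ) ≤ (B : ℝ) := by exact_mod_cast hB0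
    obtain ⟨b, hb1, hb2⟩ : ∃ b : ℕ, 2 * (t + 1) < 2 ^ b ∧ 2 ^ b ≤ 4 * (t + 1) := by
      refine ⟨(2 * (t + 1)).size, Nat.lt_size_self _, ?_⟩
      have h1 : 0 < (2 * (t + 1)).size := Nat.size_pos.2 (by omega)
      obtain ⟨b', hb'⟩ : ∃ b', (2 * (t + 1)).size = b' + 1 :=
        ⟨(2 * (t + 1)).size - 1, by omega⟩
      have h2 : 2 ^ b' ≤ 2 * (t + 1) := by
        by_contra h
        push Not at h
        have := Nat.size_le.2 h
        omega
      rw [hb', pow_succ]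
      omega
    have hlen : (List.replicate (D * b) false).length = D * b := List.length_replicate
    have hbl := ineq3 D w.length b t c0 hD (max C 0) hC₀0 hc0 hb2 ht0
    have q1 := ineq1 D B s hB0 _ _ _ hl0 hl'0 hll8 (by linarith) hB1
    have q2 := ineq2 D hD _ _ _ (max C 0) t B hl1 hl'1 hN1 hC₀0 hll8 hl'2 hBr ht0 hB2
    have q3 := ineq4 D b s c0 _ _ hl1 hbl hl3
    refine ⟨List.replicate (D * b) false, t + 1, s, D * b + b, B, (2 * B + 1) ^ D, ?_, ?_, ?_,
      hB0, ?_, ?_, ?_, ?_, ?_⟩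
    · unfold Net.AcceptsAt
      rw [val_zero_cell hV A N hN hcw w y b t hb1, sc_head]
      exact hacc
    · rw [hlen]; omega
    · calc t + 1 < 2 ^ b := by omega
        _ ≤ 2 ^ (D * b + b) := Nat.pow_le_pow_right (by norm_num) (by omega)
    · calc B ≤ 2 * B + 1 := by omega
        _ = (2 * B + 1) ^ 1 := (pow_one _).symm
        _ ≤ (2 * B + 1) ^ D := Nat.pow_le_pow_right (by omega) hD
    · intro τ _ z hzl
      rw [hlen] at hzl
      refine ⟨val_len A N hN s hs w y _ z τ, ?_, ?_⟩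
      · intro b'
        rw [addr_len A N hN, hzl]
        omega
      · intro k hk _
        exact (hC D A N hN w.length b k τ z hzl).trans (Nat.pow_le_pow_left (by omega) D)
    · refine q1.trans (mul_le_mul_of_nonneg_right ?_ (by linarith))
      linarith
    · push_cast
      refine q2.trans ?_
      rw [mul_assoc]
      refine mul_le_mul_of_nonneg_right ?_ (by positivity)
      linarith
    · refine q3.trans (mul_le_mul_of_nonneg_right ?_ (by linarith))
      linarith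

end Pool.Agent.Helper96.NX
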